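import Pool.Agent.Q9.FJT.Bool

/-!
# Groups of locally constant functions on a compact space, with any group of homeomorphisms

`C` is any class of groups with the closure properties `ClosedE C`, all of which are known for the
class of the groups that satisfy the Full Farrell–Jones Conjecture. `D` is any class which is closed under subgroups and satisfies the
extension principle over `C`, for instance `D = C`.

Outline of the proof. Let `σ` be a homeomorphism of `Y` and `E` a finite set of locally constant
functions with values in `A`. Starting from any point `y` there is a sequence `(u n)` of points,
`n` in `ℤ`, with `u 0 = y`, which is periodic near both ends of `ℤ` and is a pseudo-orbit of `σ⁻¹` that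
the functions in `E` cannot distinguish from an orbit. Restriction to this sequence takes the
action of `σ` on `E` to the translation of functions on `ℤ` which are periodic near both ends. The
group of these functions, extended by the translations, is in `C`: modulo the functions of finite
support it embeds in a product of two groups `A ^ m ⋊ ℤ`, and the functions of finite support
form a restricted direct sum permuted by the translations. Finitely many points `y` suffice to
detect the group generated by `E` and `σ E`, so the criterion for extensions applies.
-/

set_option autoImplicit false

namespace Pool.Agent.Results.MP_490288_al.BooleanPowers

open Pool.Agent.Y110.FJ (ClosedE)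
open Q30.FJ (ClosedOver)

/-- Let `C` be a class of groups with the closure properties `ClosedE C`, and let the class `D` be
closed under subgroups and satisfy the extension principle over `C`. Let `A` be a group in `C`, let `Y`
be a compact space, and let `G` be a group with a normal subgroup `N` which is embedded in the group
of the locally constant functions from `Y` to `A`, such that every `g` in `G` acts on `N` by a
homeomorphism of `Y` followed by the conjugation by a locally constant function. If `G ⧸ N` is
in `D`, then `G` is in `D`. -/
theorem result (C D : ∀ (G : Type) [Group G], Prop) (hC : ClosedE C) (hD : ClosedOver C D)
    (A : Type) [Group A] (hA : C A) (Y : Type) [TopologicalSpace Y] [CompactSpace Y]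
    (G : Type) [Group G] (N : Subgroup G) [N.Normal] (ι : N →* LocallyConstant Y A)
    (hι : Function.Injective ι)
    (hconj : ∀ g : G, ∃ (σ : Y ≃ₜ Y) (u : LocallyConstant Y A), ∀ n n' : N,
      (n' : G) = g * n * g⁻¹ → ι n' = u * (ι n).comap (σ : C(Y, Y)) * u⁻¹)
    (hQ : D (G ⧸ N)) : D G :=
  Q9.FJT.lc_mem hC hD hA N ι hι hconj hQ

end Pool.Agent.Results.MP_490288_al.BooleanPowers
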