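import Pool.Agent.Q9.FJP.Artin

/-!
# Products of groups along even relations

`C` is any class of groups with the closure properties `ClosedE C`, all of which are known for the
class of the groups that satisfy the Full Farrell–Jones Conjecture. `D` is any class with the
properties `ClosedOver C D`: it is closed under subgroups and satisfies the extension principle over
`C`; for instance `D = C`.

An `EvenRel V A` consists of sets `R u v` of elements of `A * A`, killed by both projections
`A * A → A`, for `u`, `v` in `V` (with `R v v` empty); `EvP` is the free product of copies of `A`,
one for each `v` in `V`, modulo the relations `R u v` between the copies at `u` and at `v`. Examples: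
graph products of copies of `A`; the products with the relations `(a b) ^ m = (b a) ^ m` for all `a`
in the copy at `u` and all `b` in the copy at `v`; the products with the relations
`[a, [b, a']] = 1`.

Outline of the proof. Two unrelated vertices `u`, `v` of a finite set `S` decompose the subgroup of
`S` as an amalgamated product of the subgroups of `S - u` and `S - v`; the retractions onto both are
jointly injective on each, so the subgroup of `S` is in `C` if these are. Hence the product is in
`C` if the subgroups of the cliques are. Let now `τ` be a permutation of `V` which preserves the
relations, and `F` a finite subset of `V`. For a suitable `n` the quotient of `V` by the `n`-th power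
of `τ`, with the relations between the translates of pairs of elements of `F`, contains `F`
faithfully, and each of its cliques is the image of a clique of `V` (three return times which are
small against `n` add up to zero). So its product is in `C` as well, `τ` acts on it with finite
order, and the conjugation by an element of `G` on finitely many elements of the kernel is realized
by an automorphism of a group in `C` which has finite order up to inner automorphisms.
-/

set_option autoImplicit false

namespace Pool.Agent.Results.MP_490288_al.EvenProducts

open Pool.Agent.Y110.FJ (ClosedE)
open Q30.FJ (ClosedOver)
open Q9.FJP

/-- Let `C` be a class of groups with the closure properties `ClosedE C`, let the class `D` be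
closed under subgroups and satisfy the extension principle over `C`, and let `E` be a family of even
relations between copies of `A` indexed by `V`.

1. The product `EvP E` is in `C` if and only if for all finite cliques (sets of pairwise related
elements of `V`) the subgroup of `EvP E` generated by the copies in the clique is in `C`.

2. Let the subgroups of the finite cliques be in `C`, and let the normal subgroup `N` of `G` be
isomorphic to `EvP E`, such that for each `g` in `G` and each finite subset `F` of `V` there are a
permutation `τ` of `V` which preserves the relations and an element `n` of `N` such that the
conjugation by `n g` maps, for each `v` in `F`, the copy of `A` at `v` identically to the copy of `A`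
at `τ v`. If `G ⧸ N` is in `D`, then `G` is in `D`. -/
theorem result (C D : ∀ (G : Type) [Group G], Prop) (hC : ClosedE C) (hD : ClosedOver C D)
    (V A : Type) [Group A] (E : EvenRel V A) :
    (C (EvP E) ↔ ∀ σ : Finset V, Clq E σ → C ↥(evs E (σ : Set V))) ∧
    ((∀ σ : Finset V, Clq E σ → C ↥(evs E (σ : Set V))) →
      ∀ (G : Type) [Group G] (N : Subgroup G) [N.Normal], D (G ⧸ N) → ∀ e : EvP E ≃* N,
      (∀ (g : G) (F : Finset V), ∃ (τ : Equiv.Perm V) (n : N),
        (∀ u v, E.R (τ u) (τ v) = E.R u v) ∧ ∀ v ∈ F, ∀ a : A,
          ((n : G) * g) * (e (ev E v a) : G) * ((n : G) * g)⁻¹ = e (ev E (τ v) a)) → D G) := by
  refine ⟨⟨fun h σ _ => ?_, fun h => ev_mem E hC h⟩,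
    fun hcl G _ N _ hQ e h => even_kernel E hC hD hcl G N hQ e h⟩
  exact hC.base.of_injective _ _ (evs E (σ : Set V)).subtype Subtype.val_injective h

end Pool.Agent.Results.MP_490288_al.EvenProducts
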