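import Pool.Agent.Q182.HvCyl

/-!
# Graphs of groups with virtually cyclic edge groups and vertex groups of hyperbolic type

`C` is any class of groups which contains the metabelian groups and has the closure properties
`ClosedA C`: the usual closure properties `ClosedE C` and closure under acylindrical actions on
trees. All of this is known for the class of the Farrell–Jones groups (solvable groups: Wegner,
acylindrical actions: Knopf).

Part 1 of the theorem below says that the fundamental group of a graph of groups with virtually
cyclic edge groups is in `C` if the vertex groups are in `C` and each infinite edge group has finite
index in its commensurator in the vertex groups at its ends. The condition on the commensurators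
holds for all infinite virtually cyclic subgroups of hyperbolic groups (with or without torsion),
for the subgroups generated by a pseudo-Anosov element of a mapping class group, and more generally
for loxodromic WPD elements of acylindrically hyperbolic groups. The graph of groups is arbitrary,
and the edge groups can be identified with each other in any way, so in general the action on the
Bass–Serre tree is not acylindrical, and the group is not relatively hyperbolic and contains
distorted (for instance unbalanced Baumslag–Solitar) subgroups.

Part 2 is the version for edge groups which have a torsion-free abelian subgroup of finite index,
possibly of infinite rank. For example the vertex groups can be relatively hyperbolic groups in `C`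
with virtually abelian peripheral groups, and the edge groups subgroups of finite index of their
maximal parabolic or elementary subgroups. If all vertex and edge groups are commensurable with
`ℤⁿ` then the groups are the generalized Baumslag–Solitar groups of rank `n`, with arbitrary
virtually abelian instead of abelian vertex groups.

Outline of the proof. By the tree of cylinders for commensurability of infinite edge stabilizers it
suffices to consider a group `M` with an action on a tree all whose vertex stabilizers are
commensurable with a torsion-free abelian group `H`. Let `E` be generated by the elements which fix
a vertex and centralize a subgroup of finite index of `H`. Such elements have a logarithm in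
`H ⊗ ℚ`, and the logarithms extend to a homomorphism on `E`. Hence `[E, E]` meets the vertex
stabilizers in finite groups. The quotient `M ⧸ E` acts on a tree with finite stabilizers. The
preimages of its cyclic subgroups have a homomorphism to a metabelian group which has finite kernel
on the stabilizers, and are treated with our result on trees with balanced virtually cyclic edge
stabilizers.
-/

set_option autoImplicit false

namespace Pool.Agent.Results.MP_490288_al.HyperbolicTypeVertices

open Q182.Cyl (ClosedA Est)
open Subgroup (Commensurable)
open Subgroup.Commensurable (commensurator)

/-- Let `C` be a class of groups with the closure properties `ClosedA C` which contains all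
metabelian groups. Let `G` be a group acting without inversions on a tree with vertex stabilizers
`G_v` in `C`. Suppose that each infinite edge stabilizer `E` has finite index in the intersection of
its commensurator with `G_v`, for the vertices `v` of the edge.

1. If all edge stabilizers are virtually cyclic (possibly finite) then `G` is in `C`.

2. If the stabilizers of any two edges with a common vertex are commensurable or have a finite
intersection, and each infinite edge stabilizer has a torsion-free abelian subgroup of finite index,
then `G` is in `C`. -/
theorem result (C : ∀ (G : Type) [Group G], Prop) (hC : ClosedA C)
    (hmet : ∀ (G : Type) [Group G], derivedSeries G 2 = ⊥ → C G)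
    (G V : Type) [Group G] [MulAction G V] (T : SimpleGraph V) (hT : T.IsTree)
    (hadj : ∀ (g : G) (v w : V), T.Adj v w → T.Adj (g • v) (g • w))
    (hinv : ∀ (g : G) (v w : V), T.Adj v w → ¬ (g • v = w ∧ g • w = v))
    (hst : ∀ v : V, C (MulAction.stabilizer G v))
    (hcom : ∀ v w : V, T.Adj v w → Infinite (Est G v w) →
      (Est G v w).relIndex (MulAction.stabilizer G v ⊓ commensurator (Est G v w)) ≠ 0) :
    ((∀ v w : V, T.Adj v w →
        ∃ c ∈ Est G v w, (Subgroup.zpowers c).relIndex (Est G v w) ≠ 0) → C G) ∧
    ((∀ v w w' : V, T.Adj v w → T.Adj v w' → Commensurable (Est G v w) (Est G v w') ∨
        Finite ↥(Est G v w ⊓ Est G v w')) →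
      (∀ v w : V, T.Adj v w → Infinite (Est G v w) →
        ∃ H : Subgroup G, H ≤ Est G v w ∧ H.relIndex (Est G v w) ≠ 0 ∧
          (∀ a ∈ H, ∀ b ∈ H, a * b = b * a) ∧
            ∀ a ∈ H, a ≠ 1 → ∀ n : ℕ, 0 < n → a ^ n ≠ 1) → C G) :=
  ⟨fun h => Q182.Hv.mainU hC hmet ⟨hT, hadj, hinv⟩ (Q182.Cyl.corF_of_vc h)
      (Q182.Hv.comE_of_vc h hcom) hst,
    fun h1 h2 => Q182.Hv.mainU hC hmet ⟨hT, hadj, hinv⟩
      (Q182.Hv.corF_of_local ⟨hT, hadj, hinv⟩ h1) (fun v w h h' => ⟨h2 v w h h', hcom v w h h'⟩) hst⟩

end Pool.Agent.Results.MP_490288_al.HyperbolicTypeVertices
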