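import Pool.Agent.Q27.TG.Main

/-!
# Test groups for the Farrell–Jones Conjecture

`C` is any class of groups which is closed under subgroups and under colimits of directed systems
with arbitrary structure maps (`SubColim C`), for instance the class of the groups that satisfy the
Full Farrell–Jones Conjecture.

It is known that all groups are in `C` as soon as one universal finitely presented group is in `C`.
Here similar test groups are found for the torsion-free groups, the left-orderable, the locally
indicable and the residually finite groups, the linear groups of a given degree over fields of
characteristic zero, and for each class of groups which is closed under subgroups and products.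

The point in (1) is that a finitely generated group of a class `Q` which is closed under subgroups
and products is the directed colimit of the largest quotients in `Q` of its finitely presented
approximations, and that there are only countably many such quotients.
-/

set_option autoImplicit false

namespace Pool.Agent.Results.MP_490288_al.TestGroups

open Q27.TG (SubColim SubProd LeftOrderable LocallyIndicable ResFinite Residual Chain)
open Q30.FJ (TorsionFree)
open Q184.Mit (Mitotic)

/-- 1. For each class `Q` of groups which is closed under subgroups and products there is a countable
group `U` in `Q` such that, for every class `C` which is closed under subgroups and directed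
colimits, all groups of `Q` are in `C` if and only if `U` is in `C`. The classes of the torsion-free,
of the locally indicable and of the residually finite groups are closed under subgroups and products.

2. For the torsion-free groups, `U` can be chosen two-generated, and it can be chosen countable and
mitotic.

3. All left-orderable groups are in `C` if and only if the group of the order automorphisms of `ℚ`
is in `C`.

4. Let each of the groups `P 0, P 1, ...` embed in the next one. All groups which are residually a
subgroup of some `P n` are in `C` if and only if the product of the `P n` is in `C`. All residually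
finite groups are in `C` if and only if the product of the finite symmetric groups is in `C`.

5. All groups `GL_n(F)`, for fields `F` of characteristic zero, are in `C` if and only if `GL_n(ℂ)`
is in `C`. -/
theorem result :
    ((∀ Q : ∀ (G : Type) [Group G], Prop, SubProd Q →
      ∃ (U : Type) (_ : Group U), Countable U ∧ Q U ∧
        ∀ C : ∀ (G : Type) [Group G], Prop, SubColim C →
          (C U ↔ ∀ (G : Type) [Group G], Q G → C G)) ∧
      SubProd (fun G _ => TorsionFree G) ∧ SubProd (fun G _ => LocallyIndicable G) ∧
      SubProd (fun G _ => ResFinite G)) ∧
    ((∃ (U : Type) (_ : Group U) (a b : U), Subgroup.closure {a, b} = ⊤ ∧ TorsionFree U ∧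
        ∀ C : ∀ (G : Type) [Group G], Prop, SubColim C →
          (C U ↔ ∀ (G : Type) [Group G], TorsionFree G → C G)) ∧
      ∃ (M : Type) (_ : Group M), Countable M ∧ Mitotic M ∧ TorsionFree M ∧
        ∀ C : ∀ (G : Type) [Group G], Prop, SubColim C →
          (C M ↔ ∀ (G : Type) [Group G], TorsionFree G → C G)) ∧
    ∀ C : ∀ (G : Type) [Group G], Prop, SubColim C →
      (C (ℚ ≃o ℚ) ↔ ∀ (G : Type) [Group G], LeftOrderable G → C G) ∧
      (∀ (P : ℕ → Type) [∀ n, Group (P n)], Chain P →
        (C (∀ n, P n) ↔ ∀ (G : Type) [Group G], Residual P G → C G)) ∧
      (C (∀ n : ℕ, Equiv.Perm (Fin n)) ↔ ∀ (G : Type) [Group G], ResFinite G → C G) ∧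
      ∀ n : ℕ, C (GL (Fin n) ℂ) ↔ ∀ (F : Type) [Field F] [CharZero F], C (GL (Fin n) F) :=
  ⟨⟨fun _ hQ => Q27.TG.one_class hQ, Q27.TG.subProd_tf, Q27.TG.subProd_li, Q27.TG.subProd_rf⟩,
    ⟨Q27.TG.one_tf, Q27.TG.one_tf_mit⟩,
    fun _ hC => ⟨Q27.TG.left_orderable hC, fun _ _ h => Q27.TG.residual hC h,
      Q27.TG.residually_finite hC, fun n => Q27.TG.linear hC n⟩⟩

end Pool.Agent.Results.MP_490288_al.TestGroups
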